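import Pool.Agent.J4H20.LV.Stm

set_option autoImplicit false

/-! # Project LV: (T3) the choice of `s` modulo `q` -/

namespace Pool.Agent.J4H18.LV

open Polynomial Pool.Agent.J4H20.LV

/-- a nontrivial `m`-th root of unity modulo `q` -/
theorem exists_root {m q : ℕ} (hm : 2 ≤ m) [Fact q.Prime] (h : m ∣ q - 1) :
    ∃ z : ZMod q, z ^ m = 1 ∧ z ^ (m - 1) ≠ 1 := by
  have hp : (Nat.minFac m).Prime := Nat.minFac_prime (by omega)
  haveI : Fact (Nat.minFac m).Prime := ⟨hp⟩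
  have hc : Nat.minFac m ∣ Fintype.card (ZMod q)ˣ := by
    rw [ZMod.card_units q]
    exact (Nat.minFac_dvd m).trans h
  obtain ⟨u, hu⟩ := exists_prime_orderOf_dvd_card (Nat.minFac m) hc
  have h1 : u ^ m = 1 := by
    rw [← orderOf_dvd_iff_pow_eq_one, hu]
    exact Nat.minFac_dvd m
  refine ⟨(u : ZMod q), by rw [← Units.val_pow_eq_pow_val, h1, Units.val_one], ?_⟩
  intro h2
  have h3 : u ^ (m - 1) = 1 := by
    apply Units.ext
    rw [Units.val_pow_eq_pow_val, h2, Units.val_one]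
  have h4 : u = 1 := by
    have : u ^ m = u ^ (m - 1) * u := by
      rw [← pow_succ]; congr 1; omega
    rw [this, h3, one_mul] at h1
    exact h1
  rw [h4, orderOf_one] at hu
  have := hp.two_le
  omega

/-- (T3) -/
theorem t_T3 : S_T3 := by
  intro m e j k D
  classical
  refine ⟨0, fun q hq x _ hmq _ hh0 hN0 hsq => ?_⟩
  have hm := D.hm
  obtain ⟨F', hF'⟩ : ∃ F' : ℤ, F' = (derivative (∏ i, (X - C (D.a i)))).eval x := ⟨_, rfl⟩
  have hFe : F' = (derivative (D.g ^ m + D.r)).eval x := by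
    rw [hF', D.hf]
  have hfe : ∏ l, (x - D.a l) = (D.g ^ m + D.r).eval x := by
    have h1 := congrArg (fun p : ℤ[X] => p.eval x) D.hf
    simpa [eval_prod] using h1
  obtain ⟨y₀, hy⟩ := hsq
  obtain ⟨G, hG⟩ : ∃ G : ZMod q, G = ((D.g.eval x : ℤ) : ZMod q) := ⟨_, rfl⟩
  obtain ⟨G', hG'⟩ : ∃ G' : ZMod q, G' = (((derivative D.g).eval x : ℤ) : ZMod q) := ⟨_, rfl⟩
  obtain ⟨H, hH⟩ : ∃ H : ZMod q, H = ((D.h.eval x : ℤ) : ZMod q) := ⟨_, rfl⟩
  obtain ⟨H', hH'⟩ : ∃ H' : ZMod q, H' = (((derivative D.h).eval x : ℤ) : ZMod q) := ⟨_, rfl⟩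
  rw [← hH] at hh0
  have h1 : y₀ ^ m = (((D.g ^ m + D.r).eval x : ℤ) : ZMod q) := by
    rw [← hy, ← hfe]
    push_cast
    rfl
  have hN : (m : ZMod q) * y₀ ^ m * H' - ((F' : ℤ) : ZMod q) * H ≠ 0 := by
    rw [h1, ← hfe, hF', hH, hH']
    have e1 : (C (m : ℤ) * (∏ i, (X - C (D.a i))) * derivative D.h -
        derivative (∏ i, (X - C (D.a i))) * D.h).eval x =
        m * (∏ l, (x - D.a l)) * (derivative D.h).eval x - (derivative (∏ i, (X - C (D.a i)))).eval x * D.h.eval x := by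
      rw [eval_sub, eval_mul, eval_mul, eval_mul, eval_C, eval_prod]
      simp only [eval_sub, eval_X, eval_C]
    rw [e1] at hN0
    intro h0
    apply hN0
    push_cast
    push_cast at h0
    exact h0
  obtain ⟨z, hz1, hz2⟩ := exists_root hm hmq
  obtain ⟨y, he1, he2⟩ : ∃ y : ZMod q, y ^ m = y₀ ^ m ∧
      (m : ZMod q) * y ^ (m - 1) * (G' * H - G * H') + ((m : ZMod q) * y₀ ^ m * H' - ((F' : ℤ) : ZMod q) * H) ≠ 0 := by
    by_cases h : (m : ZMod q) * y₀ ^ (m - 1) * (G' * H - G * H') + ((m : ZMod q) * y₀ ^ m * H' - ((F' : ℤ) : ZMod q) * H) = 0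
    · refine ⟨z * y₀, by rw [mul_pow, hz1, one_mul], ?_⟩
      have e1 : (m : ZMod q) * (z * y₀) ^ (m - 1) * (G' * H - G * H') +
          ((m : ZMod q) * y₀ ^ m * H' - ((F' : ℤ) : ZMod q) * H) =
          (1 - z ^ (m - 1)) * ((m : ZMod q) * y₀ ^ m * H' - ((F' : ℤ) : ZMod q) * H) := by
        have e2 : (m : ZMod q) * y₀ ^ (m - 1) * (G' * H - G * H') =
            -((m : ZMod q) * y₀ ^ m * H' - ((F' : ℤ) : ZMod q) * H) := eq_neg_of_add_eq_zero_left h
        rw [mul_pow]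
        calc (m : ZMod q) * (z ^ (m - 1) * y₀ ^ (m - 1)) * (G' * H - G * H') +
            ((m : ZMod q) * y₀ ^ m * H' - ((F' : ℤ) : ZMod q) * H) =
            z ^ (m - 1) * ((m : ZMod q) * y₀ ^ (m - 1) * (G' * H - G * H')) +
              ((m : ZMod q) * y₀ ^ m * H' - ((F' : ℤ) : ZMod q) * H) := by ring
          _ = _ := by rw [e2]; ring
      rw [e1]
      exact mul_ne_zero (sub_ne_zero.2 (Ne.symm hz2)) hN
    · exact ⟨y₀, rfl, h⟩
  obtain ⟨s, hs⟩ : ∃ s : ZMod q, s * H = y - G := ⟨(y - G) / H, div_mul_cancel₀ _ hh0⟩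
  refine ⟨s, fun c M hM hc => ?_⟩
  have hM0 : ((M : ℤ) : ZMod q) ≠ 0 := by
    intro h
    exact hM ((ZMod.intCast_zmod_eq_zero_iff_dvd _ _).1 h)
  have e0 : (M : ZMod q) * G + (c : ZMod q) * H = (M : ZMod q) * y := by
    rw [hc]
    calc (M : ZMod q) * G + s * (M : ZMod q) * H = (M : ZMod q) * G + (M : ZMod q) * (s * H) := by ring
      _ = (M : ZMod q) * y := by rw [hs]; ring
  constructor
  · rw [← ZMod.intCast_zmod_eq_zero_iff_dvd]
    have e2 : (HL m D.g D.r D.h c M).eval x = (M * D.g.eval x + c * D.h.eval x) ^ m - M ^ m * (D.g ^ m + D.r).eval x := by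
      unfold HL
      rw [eval_sub, eval_pow, eval_add, eval_mul, eval_mul, eval_C, eval_C, eval_mul, eval_C]
    rw [e2]
    push_cast
    rw [← hG, ← hH, e0, ← h1, ← he1, mul_pow, sub_self]
  · rw [← ZMod.intCast_zmod_eq_zero_iff_dvd]
    have e2 : (derivative (HL m D.g D.r D.h c M)).eval x = m * (M * D.g.eval x + c * D.h.eval x) ^ (m - 1) *
        (M * (derivative D.g).eval x + c * (derivative D.h).eval x) - M ^ m * (derivative (D.g ^ m + D.r)).eval x := by
      unfold HL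
      rw [derivative_sub, derivative_pow, derivative_add, derivative_C_mul, derivative_C_mul,
        derivative_C_mul, eval_sub, eval_mul, eval_mul, eval_mul, eval_pow, eval_add, eval_add, eval_mul, eval_mul,
        eval_mul, eval_mul, eval_C, eval_C, eval_C, eval_C]
    rw [e2, ← hFe]
    push_cast
    rw [← hG, ← hG', ← hH, ← hH', e0]
    intro h0
    apply he2
    have e3 : (M : ZMod q) ^ m * ((m : ZMod q) * y ^ (m - 1) * (G' * H - G * H') +
        ((m : ZMod q) * y₀ ^ m * H' - ((F' : ℤ) : ZMod q) * H)) =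
        ((m : ZMod q) * ((M : ZMod q) * y) ^ (m - 1) * ((M : ZMod q) * G' + (c : ZMod q) * H') -
          (M : ZMod q) ^ m * ((F' : ℤ) : ZMod q)) * H := by
      have t1 : (M : ZMod q) ^ m = (M : ZMod q) ^ (m - 1) * (M : ZMod q) := by
        rw [← pow_succ]; congr 1; omega
      have t2 : y₀ ^ m = y ^ (m - 1) * y := by
        rw [← he1, ← pow_succ]; congr 1; omega
      rw [t2, t1, mul_pow, hc]
      have t3 : y = s * H + G := by rw [hs]; ring
      calc (M : ZMod q) ^ (m - 1) * (M : ZMod q) * ((m : ZMod q) * y ^ (m - 1) * (G' * H - G * H') +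
            ((m : ZMod q) * (y ^ (m - 1) * y) * H' - ((F' : ℤ) : ZMod q) * H)) =
          (M : ZMod q) ^ (m - 1) * (M : ZMod q) * ((m : ZMod q) * y ^ (m - 1) * (G' * H - G * H' + y * H') -
            ((F' : ℤ) : ZMod q) * H) := by ring
        _ = (M : ZMod q) ^ (m - 1) * (M : ZMod q) * ((m : ZMod q) * y ^ (m - 1) * (G' * H - G * H' + (s * H + G) * H') -
            ((F' : ℤ) : ZMod q) * H) := by rw [← t3]
        _ = _ := by ring
    rw [h0, zero_mul] at e3
    exact (mul_eq_zero.1 e3).resolve_left (pow_ne_zero _ hM0)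

end Pool.Agent.J4H18.LV
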